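import Pool.Agent.TH900.YM.Gen
import Pool.Agent.H343Y.G4

/-!
# Simultaneous measure for `ζ(9), ζ(11), …, ζ(21)`: the archimedean bound, uniformly in `u`

The proofs of `G4_entry_of` and `G4_arch_of` of `Pool.Agent.H343Y`, with the equation `ζ(i+6) = u i` replaced by
the bound of the functional (`Nice`).
-/

open Polynomial Pool.Agent.H337R2 Filter Topology

namespace Pool.Agent.TH900.YM

open Pool.Agent.H343Y Pool.Agent.H343Y.G4eAux

noncomputable section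

/-- bounds of the entries (the proof of `G4_entry_of`, with the bound of the functional as hypothesis on `u`) -/
theorem entry_of (Cv : ℝ) (hCv : 0 < Cv) (h10 : HG10) (h2 : HG2) {T : ℝ}
    (hT : T = Real.exp (((50000 : ℕ) : ℝ) * Real.log 2)) (hA : HG3A T) (hm : HG4m) :
    ∃ (C : ℝ) (K : ℕ), 0 < C ∧ ∀ N : ℕ, 1 ≤ N → ∀ n : ℕ, n = 24 * N + 1 → ∀ u : ℕ → ℚ,
    Nice Cv n u →
    ∀ i < 792 * N, ∀ j < 792 * N, |((NL n u (PN N i * PN N j) : ℚ) : ℝ)| ≤ C * (n : ℝ) ^ K *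
      Real.exp ((2 * (Lam * N) + 8 * (i + j) * Real.log N +
        ((EX N i : ℝ) + EX N j - 100000 * N) * Real.log 2) / 4) := by
  obtain ⟨CC, K, hCC, hind⟩ := index h10 h2 hT hA
  have hCC0 : 0 < CC := by linarith
  refine ⟨Cv * CC, K, by positivity, ?_⟩
  intro N hN n hn u hu i hi j hj
  have hn1 : (1 : ℝ) ≤ n := by
    have : 1 ≤ n := by omega
    exact_mod_cast this
  obtain ⟨Ri, mi, hmi, hPi, hbi⟩ := hind N hN n hn i
  obtain ⟨Rj, mj, hmj, hPj, hbj⟩ := hind N hN n hn j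
  have hexp : (2 * (Lam * N) + 8 * (i + j) * Real.log N +
        ((EX N i : ℝ) + EX N j - 100000 * N) * Real.log 2) / 4 = (ax N i + ax N j) / 4 := by
    unfold ax; ring
  have hdeg : (PN N i * PN N j).natDegree ≤ 66 * n - 68 := by
    have h1 := Polynomial.natDegree_mul_le (p := PN N i) (q := PN N j)
    rw [(hm hN i hi).2, (hm hN j hj).2] at h1
    omega
  rw [hexp, mul_assoc Cv CC, mul_assoc Cv]
  refine hu _ hdeg _ ?_
  intro r hr
  have hx := one_le_xv (n := n) (U := 0) (by omega : 1 ≤ n) hr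
  have hr1 : 0 < 1 + r ^ 2 := by positivity
  rw [← div_eq_mul_inv, le_div_iff₀ hr1, map_mul, norm_mul, hPi, hPj, map_mul, map_mul, map_pow,
    map_pow, aeval_X, norm_mul, norm_mul, norm_pow, norm_pow]
  have hbi' := hbi r hr
  have hbj' := hbj r hr
  set x : ℝ := ‖xv n (zv 0 r)‖ with hxd
  set a : ℝ := ‖aeval (xv n (zv 0 r)) Ri‖ with had
  set b : ℝ := ‖aeval (xv n (zv 0 r)) Rj‖ with hbd
  have ha : 0 ≤ a := norm_nonneg _
  have hb : 0 ≤ b := norm_nonneg _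
  have hx0 : 0 ≤ x := norm_nonneg _
  set f0 : ℝ := ‖Rv n (zv 0 r)‖ * Real.exp (-(2 * Real.pi * r)) * (1 + r ^ 2) with hf0
  have hf00 : 0 ≤ f0 := by rw [hf0]; positivity
  have hfw : fw n 0 r = f0 * x ^ 400 := by
    rw [hf0, hxd]; unfold fw; ring
  have hL : ‖Rv n (zv 0 r)‖ * x ^ 74 * (a * x ^ mi * (b * x ^ mj)) *
      Real.exp (-(2 * Real.pi * r)) * (1 + r ^ 2) ≤ f0 * x ^ 400 * a * b := by
    have h1 : x ^ (74 + mi + mj) ≤ x ^ 400 := pow_le_pow_right₀ hx (by omega)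
    calc _ = f0 * x ^ (74 + mi + mj) * a * b := by
          rw [hf0, pow_add, pow_add]; ring
      _ ≤ _ := by
          apply mul_le_mul_of_nonneg_right _ hb
          apply mul_le_mul_of_nonneg_right _ ha
          exact mul_le_mul_of_nonneg_left h1 hf00
  refine hL.trans ?_
  have hnK : (1 : ℝ) ≤ (n : ℝ) ^ K := one_le_pow₀ hn1
  have hCn : 1 ≤ CC * (n : ℝ) ^ K := by nlinarith
  have h4 : (f0 * x ^ 400 * a * b) ^ 4 ≤
      (CC * (n : ℝ) ^ K * Real.exp ((ax N i + ax N j) / 4)) ^ 4 := by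
    rw [hfw] at hbi' hbj'
    calc (f0 * x ^ 400 * a * b) ^ 4 = (f0 * x ^ 400 * a ^ 2) ^ 2 * (f0 * x ^ 400 * b ^ 2) ^ 2 := by
          ring
      _ ≤ (CC * (n : ℝ) ^ K * Real.exp (ax N i)) * (CC * (n : ℝ) ^ K * Real.exp (ax N j)) :=
          mul_le_mul hbi' hbj' (by positivity) (by positivity)
      _ = (CC * (n : ℝ) ^ K) ^ 2 * Real.exp (ax N i + ax N j) := by
          rw [Real.exp_add]; ring
      _ ≤ (CC * (n : ℝ) ^ K) ^ 4 * Real.exp (ax N i + ax N j) := by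
          apply mul_le_mul_of_nonneg_right _ (Real.exp_pos _).le
          exact pow_le_pow_right₀ hCn (by norm_num)
      _ = _ := by
          have : Real.exp (ax N i + ax N j) = Real.exp ((ax N i + ax N j) / 4) ^ 4 := by
            rw [← Real.exp_nat_mul]; congr 1; push_cast; ring
          rw [this]; ring
  exact le_of_pow_le_pow_left₀ (four_ne_zero : (4:ℕ) ≠ 0) (by positivity) h4

/-- total archimedean bound, from the bounds of the entries (the proof of `G4_arch_of`) -/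
theorem arch_of (Cv : ℝ)
    (hM : ∀ N : ℕ, 1 ≤ N → ∀ i : ℕ, i < 792 * N → (PN N i).Monic ∧ (PN N i).natDegree = i)
    (hEnt : ∃ (C : ℝ) (K : ℕ), 0 < C ∧ ∀ N : ℕ, 1 ≤ N → ∀ n : ℕ, n = 24 * N + 1 → ∀ u : ℕ → ℚ,
      Nice Cv n u →
      ∀ i < 792 * N, ∀ j < 792 * N, |((NL n u (PN N i * PN N j) : ℚ) : ℝ)| ≤ C * (n : ℝ) ^ K *
        Real.exp ((2 * (Lam * N) + 8 * (i + j) * Real.log N + ((EX N i : ℝ) + EX N j - 100000 * N) * Real.log 2) / 4))
    (hS : ∀ N : ℕ, 1 ≤ N →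
      ((∑ i ∈ Finset.range (792 * N), EX N i : ℕ) : ℝ) ≤ 17649126 * (N : ℝ) ^ 2) :
    ∀ ε : ℝ, 0 < ε → ∀ᶠ N : ℕ in atTop, ∀ n : ℕ, n = 24 * N + 1 → ∀ u : ℕ → ℚ,
    Nice Cv n u →
    DET n u (33 * (n - 1)) ≠ 0 →
    Real.log |((DET n u (33 * (n - 1)) : ℚ) : ℝ)| ≤
      2178 * (n : ℝ) ^ 2 * Real.log n + (JJ + ε) * (n : ℝ) ^ 2 := by
  intro ε hε
  obtain ⟨C, K, hC, hE⟩ := hEnt
  set c : ℝ := |Real.log 33 + Real.log C| + |JJ| with hc
  have hev := G4h.final_ev c (K + 1) ε hε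
  have htd : Tendsto (fun N : ℕ => 24 * N + 1) atTop atTop := by
    apply tendsto_atTop_mono (fun N => _) tendsto_id
    intro N
    show N ≤ 24 * N + 1
    omega
  filter_upwards [htd.eventually hev, eventually_ge_atTop 1] with N hNev hN n hn u hz hD
  have hm : 33 * (n - 1) = 792 * N := by omega
  rw [hm] at hD ⊢
  rw [← hn] at hNev
  have hn1 : 1 ≤ n := by omega
  have hlog := G4h.log_det_le hC hN hn1 u (hM N hN) (hE N hN n hn u hz) hD
  have hsum := G4h.sum_al (C := C) (K := K) (n := n) hN (hS N hN)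
  have hn0 : (1 : ℝ) ≤ n := by exact_mod_cast hn1
  have hN0 : (1 : ℝ) ≤ N := by exact_mod_cast hN
  have hnN : (n : ℝ) = 24 * N + 1 := by rw [hn]; push_cast; ring
  have hl : 0 ≤ Real.log n := Real.log_natCast_nonneg n
  -- log N = log (24 N) - log 24
  have hlN : Real.log (24 * (N : ℝ)) = Real.log 24 + Real.log N :=
    Real.log_mul (by norm_num) (by positivity)
  have hlNn : Real.log (24 * (N : ℝ)) ≤ Real.log n :=
    Real.log_le_log (by positivity) (by rw [hnN]; linarith)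
  have q1 : 1254528 * (N : ℝ) ^ 2 * Real.log N ≤
      2178 * (n : ℝ) ^ 2 * Real.log n - 2178 * Real.log 24 * (576 * (N : ℝ) ^ 2) := by
    have e1 : 1254528 * (N : ℝ) ^ 2 * Real.log N =
        2178 * (24 * (N : ℝ)) ^ 2 * Real.log (24 * (N : ℝ)) - 2178 * Real.log 24 * (576 * (N : ℝ) ^ 2) := by
      rw [hlN]; ring
    have e2 : 2178 * (24 * (N : ℝ)) ^ 2 * Real.log (24 * (N : ℝ)) ≤ 2178 * (n : ℝ) ^ 2 * Real.log n := by
      have a1 : 2178 * (24 * (N : ℝ)) ^ 2 ≤ 2178 * (n : ℝ) ^ 2 := by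
        have : 24 * (N : ℝ) ≤ n := by rw [hnN]; linarith
        have h0 : (0 : ℝ) ≤ 24 * N := by positivity
        nlinarith
      exact mul_le_mul a1 hlNn (Real.log_nonneg (by linarith)) (by positivity)
    linarith
  have q2 : JJ * (576 * (N : ℝ) ^ 2) = 396 * Lam * (N : ℝ) ^ 2 +
      (17649126 - 792 * 50000) * (Real.log 2 / 2) * (N : ℝ) ^ 2 - 2178 * Real.log 24 * (576 * (N : ℝ) ^ 2) := by
    unfold JJ
    ring
  have q3 : JJ * (576 * (N : ℝ) ^ 2) ≤ JJ * (n : ℝ) ^ 2 + |JJ| * (33 * n) := by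
    have e1 : (n : ℝ) ^ 2 - 576 * (N : ℝ) ^ 2 = 48 * N + 1 := by rw [hnN]; ring
    have e2 : 48 * (N : ℝ) + 1 ≤ 33 * n := by rw [hnN]; linarith
    have e3 : JJ * (576 * (N : ℝ) ^ 2) = JJ * (n : ℝ) ^ 2 - JJ * (48 * N + 1) := by rw [← e1]; ring
    have e4 : - JJ * (48 * (N : ℝ) + 1) ≤ |JJ| * (33 * n) := by
      calc - JJ * (48 * (N : ℝ) + 1) ≤ |JJ| * (48 * N + 1) :=
            mul_le_mul_of_nonneg_right (neg_le_abs JJ) (by positivity)
        _ ≤ |JJ| * (33 * n) := mul_le_mul_of_nonneg_left e2 (abs_nonneg _)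
    linarith
  have hm33 : ((792 * N : ℕ) : ℝ) ≤ 33 * n := by push_cast; rw [hnN]; linarith
  have hm0 : (0 : ℝ) < ((792 * N : ℕ) : ℝ) := by exact_mod_cast (by omega : 0 < 792 * N)
  have q4 : Real.log ((792 * N : ℕ) : ℝ) ≤ Real.log 33 + Real.log n := by
    rw [← Real.log_mul (by norm_num) (by positivity)]
    exact Real.log_le_log hm0 hm33
  have q5 : ((792 * N : ℕ) : ℝ) * Real.log ((792 * N : ℕ) : ℝ) ≤
      ((792 * N : ℕ) : ℝ) * (Real.log 33 + Real.log n) := mul_le_mul_of_nonneg_left q4 hm0.le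
  have q6 : ((792 * N : ℕ) : ℝ) * (Real.log 33 + Real.log C) ≤ 33 * n * |Real.log 33 + Real.log C| := by
    calc _ ≤ ((792 * N : ℕ) : ℝ) * |Real.log 33 + Real.log C| :=
          mul_le_mul_of_nonneg_left (le_abs_self _) hm0.le
      _ ≤ _ := mul_le_mul_of_nonneg_right hm33 (abs_nonneg _)
  have q7 : ((792 * N : ℕ) : ℝ) * (((K : ℝ) + 1) * Real.log n) ≤ 33 * n * (((K : ℝ) + 1) * Real.log n) :=
    mul_le_mul_of_nonneg_right hm33 (by positivity)
  have hNev' : 33 * (n : ℝ) * (c + ((K : ℝ) + 1) * Real.log n) ≤ ε * (n : ℝ) ^ 2 := by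
    have := hNev
    push_cast at this
    exact this
  rw [hc] at hNev'
  push_cast at hlog q5 q6 q7
  have e5 : 33 * (n : ℝ) * (|Real.log 33 + Real.log C| + |JJ| + ((K : ℝ) + 1) * Real.log n) =
      33 * n * |Real.log 33 + Real.log C| + |JJ| * (33 * n) + 33 * n * (((K : ℝ) + 1) * Real.log n) := by ring
  rw [e5] at hNev'
  have e6 : (JJ + ε) * (n : ℝ) ^ 2 = JJ * (n : ℝ) ^ 2 + ε * (n : ℝ) ^ 2 := by ring
  rw [e6]
  nlinarith only [hlog, hsum, q1, q2, q3, q5, q6, q7, hNev']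


/-- the archimedean bound -/
theorem arch (Cv : ℝ) (hCv : 0 < Cv) : ∀ ε : ℝ, 0 < ε → ∀ᶠ N : ℕ in atTop, ∀ n : ℕ, n = 24 * N + 1 → ∀ u : ℕ → ℚ,
    Nice Cv n u → DET n u (33 * (n - 1)) ≠ 0 →
    Real.log |((DET n u (33 * (n - 1)) : ℚ) : ℝ)| ≤
      2178 * (n : ℝ) ^ 2 * Real.log n + (JJ + ε) * (n : ℝ) ^ 2 :=
  arch_of Cv (fun _ hN i hi => G4_monic hN i hi)
    (entry_of Cv hCv G1_0 (fun hN c a b ha hb ρ hρ => G2_qa hN c a b ha hb ρ hρ)
      (G4eAux.pow_eq_exp 50000) G3_A (fun hN i hi => G4_monic hN i hi)) (fun _ hN => G4_sum hN)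

end

end Pool.Agent.TH900.YM
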