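import Pool.Agent.TH900.YM.Rho
import Pool.Agent.TH900.OM.KG

/-!
# Simultaneous measure for `ζ(9), ζ(11), …, ζ(21)`: numerical bound of the constants of `Rho.lean`
-/

open Filter Topology Pool.Agent.TH900.OM

namespace Pool.Agent.TH900.YM

noncomputable section

/-- the constant in front of the exponential -/
def CK : ℝ := 14 * (((10 : ℕ) : ℝ) * ((16 : ℕ) : ℝ) + ((16 : ℕ) : ℝ)) ^ 2 *
  (((10 : ℕ) : ℝ) + 1) ^ (2 * 16 * 16) *
  (25.1 * 25.2 * (160 / 7) * Real.exp 1 / (((10 : ℕ) : ℝ) * ((16 : ℕ) : ℝ))) ^ 16 *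
  Real.exp (Real.pi * ((16 : ℕ) : ℝ) / 8)

lemma log_num : Real.log 18.073 ≤ 2.90225 := by
  have h1 : (18.073 : ℝ) = 2 ^ 4 * (18.073 / 16) := by norm_num
  rw [h1, Real.log_mul (by norm_num) (by norm_num), Real.log_pow]
  have h2 : Real.log (18.073 / 16) ≤ 18.073 / 16 - 1 := Real.log_le_sub_one_of_pos (by norm_num)
  have h3 := Real.log_two_lt_d9
  push_cast
  linarith

lemma KK_le {n : ℕ} (hn : 1 ≤ n) : KK n ≤ CK * (n : ℝ) ^ (3 + 2 * 16 * 16 + 16) * Real.exp (848 * n) := by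
  have hn1 : (1 : ℝ) ≤ n := by exact_mod_cast hn
  have h := KG_le 14 25.1 25.2 (by norm_num) (by norm_num) (by norm_num) 10 16 16 (by norm_num) (by norm_num)
    (n := n) (D := 160 * n + 16) (D' := 160 * n + 15) (L := 10 * n) hn (by ring) (by ring) rfl
  unfold KK
  refine h.trans ?_
  unfold CK
  apply mul_le_mul_of_nonneg_left _ (by positivity)
  have h1 : (25.1 * 25.2 * (160 / 7) * 2 / (((10 : ℕ) : ℝ) * ((16 : ℕ) : ℝ) * ((10 : ℕ) : ℝ))) ≤ 18.073 := by
    norm_num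
  have h2 : (25.1 * 25.2 * (160 / 7) * 2 / (((10 : ℕ) : ℝ) * ((16 : ℕ) : ℝ) * ((10 : ℕ) : ℝ))) ^ (10 * 16 * n) ≤
      Real.exp (160 * n * 2.90225) := by
    refine (pow_le_pow_left₀ (by positivity) h1 _).trans ?_
    calc (18.073 : ℝ) ^ (10 * 16 * n) = Real.exp (Real.log 18.073) ^ (10 * 16 * n) := by
          rw [Real.exp_log (by norm_num)]
      _ = Real.exp (((10 * 16 * n : ℕ) : ℝ) * Real.log 18.073) := by rw [Real.exp_nat_mul]
      _ ≤ _ := by
        apply Real.exp_le_exp.2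
        push_cast
        have := log_num
        nlinarith
  refine (mul_le_mul_of_nonneg_right h2 (Real.exp_pos _).le).trans ?_
  rw [← Real.exp_add]
  apply Real.exp_le_exp.2
  have hpi := Real.pi_lt_d2
  push_cast
  nlinarith

/-- for large `n`, `C KK(n) ≤ e^{849 n}` -/
theorem KK_small (C : ℝ) (hC : 0 ≤ C) : ∀ᶠ n : ℕ in atTop, C * KK n * Real.exp (-(849 * n)) ≤ 1 := by
  filter_upwards [exp_poly (C * CK) 1 1 (3 + 2 * 16 * 16 + 16) one_pos one_pos, eventually_ge_atTop 1] with n h1 h2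
  refine le_trans ?_ h1
  have h := KK_le h2
  have hn1 : (1 : ℝ) ≤ n := by exact_mod_cast h2
  calc C * KK n * Real.exp (-(849 * n)) ≤
      C * (CK * (n : ℝ) ^ (3 + 2 * 16 * 16 + 16) * Real.exp (848 * n)) * Real.exp (-(849 * n)) := by
        apply mul_le_mul_of_nonneg_right _ (Real.exp_pos _).le
        exact mul_le_mul_of_nonneg_left h hC
    _ = C * CK * (n : ℝ) ^ (3 + 2 * 16 * 16 + 16) * (Real.exp (848 * n) * Real.exp (-(849 * n))) := by ring
    _ = _ := by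
        rw [← Real.exp_add]
        congr 2
        ring

end

end Pool.Agent.TH900.YM
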